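import Pool.Agent.Helper15.EP.St

set_option autoImplicit false

/-! Project EP (MP_16cbc0_nt), module FNE. -/

open Polynomial Pool.Agent.Helper15.FC Pool.Agent.Helper15.EP

namespace Pool.Agent.Helper31.EP

private theorem two_le_qr2 (F : Type) [Field F] [Fintype F] : (2 : ℝ) ≤ qr F := by
  have h : 1 < Fintype.card F := Fintype.one_lt_card
  have h2 : 2 ≤ Fintype.card F := h
  unfold qr
  exact_mod_cast h2

open scoped Classical in
private theorem fin_core (hPT2 : StPT2) (hCRR : StCRR) (F : Type) [Field F] [Fintype F]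
    (h : F[X]) (h0 : h ≠ 0) (k l : ℕ) (ε c0 c1 : ℝ) (hε : 0 < ε) (hc : c0 < c1)
    (hS : 0 < ∑' i : ℕ, Gs k l h i)
    (hN : ∃ n0 : ℕ, ∀ n : ℕ, n0 ≤ n → c1 * ((n : ℝ) ^ (k + l) / (k.factorial * l.factorial)) ≤
      (((Finset.Nat.antidiagonalTuple (k + 1) n ×ˢ
        Finset.Nat.antidiagonalTuple (l + 1) n).filter
        (fun p : (Fin (k + 1) → ℕ) × (Fin (l + 1) → ℕ) => Good ε n p.1 p.2)).card : ℝ)) :
    ∃ n0 : ℕ, ∀ n : ℕ, n0 ≤ n →
      c0 * ((∑' i : ℕ, Gs k l h i) * qr F ^ n * (n : ℝ) ^ (k + l) /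
        (k.factorial * l.factorial)) ≤ (Corr F (k + 1) (l + 1) n h : ℝ) := by
  obtain ⟨n1, hn1⟩ := hN
  obtain ⟨δ, n2, hδ, hn2⟩ := hPT2 F k l h ε h0 hε
  set S : ℝ := ∑' i : ℕ, Gs k l h i with hSdef
  have hq2 := two_le_qr2 F
  set q : ℝ := qr F with hq
  have hq0 : 0 < q := by linarith
  set r : ℝ := q ^ (-δ) with hr
  have hr0 : 0 < r := Real.rpow_pos_of_pos hq0 _
  have hr1 : r < 1 := Real.rpow_lt_one_of_one_lt_of_neg (by linarith) (by linarith)
  have hlim := tendsto_pow_atTop_nhds_zero_of_lt_one hr0.le hr1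
  have hM : 0 < min S ((c1 - c0) * S / (|c1| + 1)) := by
    refine lt_min hS ?_
    have h1 : 0 < c1 - c0 := by linarith
    positivity
  obtain ⟨n3, hn3⟩ := Filter.eventually_atTop.1 (hlim.eventually_lt_const hM)
  refine ⟨max (max n1 n2) (max n3 (h.natDegree + 1)), ?_⟩
  intro n hn
  have hnn1 : n1 ≤ n := (le_max_left _ _).trans ((le_max_left _ _).trans hn)
  have hnn2 : n2 ≤ n := (le_max_right _ _).trans ((le_max_left _ _).trans hn)
  have hnn3 : n3 ≤ n := (le_max_left _ _).trans ((le_max_right _ _).trans hn)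
  have hnn4 : h.natDegree + 1 ≤ n := (le_max_right _ _).trans ((le_max_right _ _).trans hn)
  have hdeg : h.degree < n := (Polynomial.natDegree_lt_iff_degree_lt h0).1 (by omega)
  have hN := hn1 n hnn1
  have hrn := hn3 n hnn3
  have hrS : r ^ n ≤ S := (hrn.trans_le (min_le_left _ _)).le
  have hrc : r ^ n ≤ (c1 - c0) * S / (|c1| + 1) := (hrn.trans_le (min_le_right _ _)).le
  have hpow : q ^ ((1 - δ) * (n : ℝ)) = q ^ n * r ^ n := by
    rw [hr, ← Real.rpow_natCast (q ^ (-δ)) n, ← Real.rpow_mul hq0.le, ← Real.rpow_natCast q n,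
      ← Real.rpow_add hq0]
    congr 1
    ring
  set G := (Finset.Nat.antidiagonalTuple (k + 1) n ×ˢ
        Finset.Nat.antidiagonalTuple (l + 1) n).filter
        (fun p : (Fin (k + 1) → ℕ) × (Fin (l + 1) → ℕ) => Good ε n p.1 p.2) with hG
  have hqn : 0 < q ^ n := pow_pos hq0 n
  have hCorr : (Corr F (k + 1) (l + 1) n h : ℝ) =
      ∑ p ∈ Finset.Nat.antidiagonalTuple (k + 1) n ×ˢ Finset.Nat.antidiagonalTuple (l + 1) n,
        (NS p.1 p.2 h : ℝ) := by
    rw [hCRR F (k + 1) (l + 1) n h hdeg, Finset.sum_product]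
    push_cast
    rfl
  have hlow : (G.card : ℝ) * (S * q ^ n - q ^ n * r ^ n) ≤ (Corr F (k + 1) (l + 1) n h : ℝ) := by
    rw [hCorr]
    calc (G.card : ℝ) * (S * q ^ n - q ^ n * r ^ n)
        = ∑ p ∈ G, (S * q ^ n - q ^ n * r ^ n) := by rw [Finset.sum_const, nsmul_eq_mul]
      _ ≤ ∑ p ∈ G, (NS p.1 p.2 h : ℝ) := by
          refine Finset.sum_le_sum fun p hp => ?_
          rw [hG, Finset.mem_filter, Finset.mem_product] at hp
          obtain ⟨⟨hx, hy⟩, hg⟩ := hp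
          have h1 := hn2 n p.1 p.2 hnn2 (Finset.Nat.mem_antidiagonalTuple.1 hx)
            (Finset.Nat.mem_antidiagonalTuple.1 hy) hg
          rw [hpow, abs_le] at h1
          linarith [h1.1]
      _ ≤ _ := by
          refine Finset.sum_le_sum_of_subset_of_nonneg (Finset.filter_subset _ _) ?_
          intro p _ _
          exact Nat.cast_nonneg _
  refine le_trans ?_ hlow
  set X : ℝ := (n : ℝ) ^ (k + l) / (k.factorial * l.factorial) with hX
  have hX0 : 0 ≤ X := by positivity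
  have hd0 : 0 ≤ S * q ^ n - q ^ n * r ^ n := by nlinarith
  have h2 : c1 * X * (S * q ^ n - q ^ n * r ^ n) ≤ (G.card : ℝ) * (S * q ^ n - q ^ n * r ^ n) :=
    mul_le_mul_of_nonneg_right hN hd0
  refine le_trans ?_ h2
  have h3 : c0 * (S * q ^ n * (n : ℝ) ^ (k + l) / (k.factorial * l.factorial)) =
      X * q ^ n * (c0 * S) := by
    rw [hX]
    ring
  have h4 : c1 * X * (S * q ^ n - q ^ n * r ^ n) = X * q ^ n * (c1 * S - c1 * r ^ n) := by ring
  rw [h3, h4]
  refine mul_le_mul_of_nonneg_left ?_ (by positivity)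
  have h5 : c1 * r ^ n ≤ (c1 - c0) * S := by
    rw [le_div_iff₀ (by positivity)] at hrc
    have h6 : c1 * r ^ n ≤ |c1| * r ^ n :=
      mul_le_mul_of_nonneg_right (le_abs_self _) (pow_nonneg hr0.le _)
    have h7 : 0 < r ^ n := pow_pos hr0 n
    nlinarith
  linarith

theorem hFNE (hPT2 : StPT2) (hCRR : StCRR) (hCNB : StCNB) (hCNC : StCNC) (_hCN1 : StCN1)
    (hSSP : StSSP) : StFNE := by
  classical
  intro F _ _ h h0
  refine ⟨?_, ?_⟩
  · intro k l η hη
    obtain ⟨c, hc, hcs⟩ := hSSP F k l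
    obtain ⟨_, hS⟩ := hcs h h0
    obtain ⟨ε, n0, hε, hn0⟩ := hCNB k l (η / 2) (by linarith)
    refine fin_core hPT2 hCRR F h h0 k l ε _
      (1 - (1 - ((k : ℝ) + 1) / 2 ^ k) * (1 - ((l : ℝ) + 1) / 2 ^ l) - η / 2) hε
      (by linarith) (by linarith) ⟨n0, ?_⟩
    intro n hn
    refine (hn0 n hn).trans_eq ?_
    congr 1
  · obtain ⟨c, hc, hcs⟩ := hSSP F 2 2
    obtain ⟨_, hS⟩ := hcs h h0
    obtain ⟨ε, n0, hε, hn0⟩ := hCNC
    have hcore := fin_core hPT2 hCRR F h h0 2 2 ε (24 / 25) (961 / 1000) hε (by norm_num)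
      (by linarith) ⟨n0, ?_⟩
    · obtain ⟨n1, hn1⟩ := hcore
      refine ⟨n1, fun n hn => ?_⟩
      have h1 := hn1 n hn
      have h2 : ((Nat.factorial 2 : ℕ) : ℝ) * (Nat.factorial 2 : ℕ) = 4 := by
        norm_num [Nat.factorial]
      rw [h2] at h1
      exact h1
    · intro n hn
      have h1 := hn0 n hn
      have h2 : ((Nat.factorial 2 : ℕ) : ℝ) * (Nat.factorial 2 : ℕ) = 4 := by
        norm_num [Nat.factorial]
      rw [h2]
      refine h1.trans_eq ?_
      congr 1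

end Pool.Agent.Helper31.EP
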