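import Pool.Agent.Helper15.EP.St

set_option autoImplicit false

/-! Project EP (MP_16cbc0_nt), module KSM. -/

open Polynomial Pool.Agent.Helper15.FC Pool.Agent.Helper15.EP

namespace Pool.Agent.Helper31.EP

private theorem two_le_qr (F : Type) [Field F] [Fintype F] : (2 : ℝ) ≤ qr F := by
  have h : 1 < Fintype.card F := Fintype.one_lt_card
  have h2 : 2 ≤ Fintype.card F := h
  unfold qr
  exact_mod_cast h2

/-- a finite sum transported along an injection into a bigger set -/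
private theorem sum_inj_le {α β : Type} [DecidableEq β] (s : Finset α) (T : Finset β) (g : α → β)
    (κ : α → ℝ) (v : β → ℝ) (hinj : Set.InjOn g (s : Set α)) (hmem : ∀ m ∈ s, g m ∈ T)
    (hk : ∀ m ∈ s, κ m ≤ v (g m)) (hv : ∀ b ∈ T, 0 ≤ v b) : ∑ m ∈ s, κ m ≤ ∑ b ∈ T, v b := by
  calc ∑ m ∈ s, κ m ≤ ∑ m ∈ s, v (g m) := Finset.sum_le_sum hk
    _ = ∑ b ∈ s.image g, v b := by rw [Finset.sum_image hinj]
    _ ≤ ∑ b ∈ T, v b := by
      refine Finset.sum_le_sum_of_subset_of_nonneg ?_ (fun b hb _ => hv b hb)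
      intro b hb
      obtain ⟨m, hm, rfl⟩ := Finset.mem_image.1 hb
      exact hmem m hm

private theorem powR {q : ℝ} (hq : 0 < q) (d i j : ℕ) (x : ℝ)
    (hx : (3 / 2 : ℝ) * d + (2 * i + j) ≤ x - i) (h1 : 1 ≤ q) :
    q ^ d * (Real.sqrt q ^ d * q ^ (2 * i + j)) ≤ q ^ (x - i) := by
  have h2 : q ^ d * (Real.sqrt q ^ d * q ^ (2 * i + j)) = q ^ ((3 / 2 : ℝ) * d + (2 * i + j)) := by
    rw [Real.sqrt_eq_rpow, ← Real.rpow_natCast (q ^ (1 / 2 : ℝ)) d, ← Real.rpow_mul hq.le,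
      ← Real.rpow_natCast q d, ← Real.rpow_natCast q (2 * i + j), ← Real.rpow_add hq,
      ← Real.rpow_add hq]
    congr 1
    push_cast
    ring
  rw [h2]
  exact Real.rpow_le_rpow_of_exponent_le h1 hx

theorem hKSM (hTAU : StTAU) : StKSM := by
  classical
  intro F _ _ t δ ht hδ
  obtain ⟨C0, hC0, hD⟩ := hTAU F δ hδ
  have hq2 := two_le_qr F
  set q : ℝ := qr F with hqdef
  have hq0 : 0 < q := by linarith
  have hq1 : 1 ≤ q := by linarith
  have hlog : 0 < Real.log q := Real.log_pos (by linarith)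
  set C1 : ℝ := 1 + 1 / (δ * Real.log q) with hC1
  have hC1' : 1 ≤ C1 := by
    have : 0 < 1 / (δ * Real.log q) := by positivity
    linarith
  set t' : F[X] := Polynomial.C (t.leadingCoeff)⁻¹ * t with ht'
  have hlc : t.leadingCoeff ≠ 0 := Polynomial.leadingCoeff_ne_zero.2 ht
  have ht'm : t'.Monic := by
    rw [ht', Polynomial.Monic, Polynomial.leadingCoeff_mul, Polynomial.leadingCoeff_C,
      inv_mul_cancel₀ hlc]
  have ht'd : t'.natDegree = t.natDegree := by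
    rw [ht', Polynomial.natDegree_C_mul (inv_ne_zero hlc)]
  have ht'dvd : t ∣ t' := Dvd.intro_left _ rfl
  set E : ℝ := q ^ (δ * (t.natDegree : ℝ)) with hE
  have hE1 : 1 ≤ E := Real.one_le_rpow hq1 (by positivity)
  refine ⟨C0 * C1 * E, ?_, ?_⟩
  · have h1 : 1 ≤ C0 * C1 := by nlinarith
    nlinarith
  intro μ κ hκ
  choose! m1 a s hm1 ha hs hm hsd hκ' using hκ
  -- the set of triples
  set A : Finset F[X] := (Finset.range (μ / 2 + 1)).biUnion (fun i => Mn F i) with hA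
  set S : F[X] → Finset F[X] := fun a => (Dv (a * t')).filter
    (fun s => 2 * a.natDegree + s.natDegree ≤ μ) with hS
  set M : F[X] → F[X] → Finset F[X] := fun a s => Mn F (μ - (2 * a.natDegree + s.natDegree)) with hM
  set T : Finset (Σ (_ : F[X]) (_ : F[X]), F[X]) :=
    A.sigma (fun a => (S a).sigma (fun s => M a s)) with hT
  set v : (Σ (_ : F[X]) (_ : F[X]), F[X]) → ℝ := fun z =>
    Real.sqrt q ^ z.2.2.natDegree * q ^ (2 * z.1.natDegree + z.2.1.natDegree) with hv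
  have hdeg : ∀ m ∈ Mn F μ, (m1 m).natDegree + (2 * (a m).natDegree + (s m).natDegree) = μ := by
    intro m hmm
    have h1 := (mem_Mn.1 hmm).2
    have h2 := congrArg Polynomial.natDegree (hm m hmm)
    rw [(hm1 m hmm).natDegree_mul (((ha m hmm).pow 2).mul (hs m hmm)),
      ((ha m hmm).pow 2).natDegree_mul (hs m hmm), (ha m hmm).natDegree_pow] at h2
    omega
  have hsum : ∑ m ∈ Mn F μ, κ m ≤ ∑ z ∈ T, v z := by
    refine sum_inj_le (Mn F μ) T (fun m => ⟨a m, s m, m1 m⟩) κ v ?_ ?_ ?_ ?_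
    · intro m hmm m' hmm' he
      have h1 : a m = a m' := congrArg (fun z => z.1) he
      have h2 : s m = s m' := congrArg (fun z => z.2.1) he
      have h3 : m1 m = m1 m' := congrArg (fun z => z.2.2) he
      rw [hm m hmm, hm m' hmm', h1, h2, h3]
    · intro m hmm
      have hd := hdeg m hmm
      rw [hT, Finset.mem_sigma]
      refine ⟨?_, ?_⟩
      · rw [hA, Finset.mem_biUnion]
        refine ⟨(a m).natDegree, ?_, mem_Mn.2 ⟨ha m hmm, rfl⟩⟩
        rw [Finset.mem_range]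
        omega
      · rw [Finset.mem_sigma]
        refine ⟨?_, ?_⟩
        · rw [hS, Finset.mem_filter]
          refine ⟨?_, by dsimp only; omega⟩
          rw [mem_Dv ((ha m hmm).mul ht'm).ne_zero]
          exact ⟨hs m hmm, (hsd m hmm).trans (mul_dvd_mul_left _ ht'dvd)⟩
        · rw [hM]
          refine mem_Mn.2 ⟨hm1 m hmm, ?_⟩
          dsimp only
          omega
    · intro m hmm
      refine (hκ' m hmm).trans_eq ?_
      rw [hv]
      dsimp only
      rw [((ha m hmm).pow 2).natDegree_mul (hs m hmm), (ha m hmm).natDegree_pow]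
    · intro b _
      rw [hv]
      positivity
  refine hsum.trans ?_
  rw [hT, Finset.sum_sigma]
  have hinner : ∀ a ∈ A, ∑ z ∈ (S a).sigma (fun s => M a s), v ⟨a, z⟩ ≤
      ((Dv (a * t')).card : ℝ) * q ^ ((3 / 2 : ℝ) * μ - a.natDegree) := by
    intro a _
    rw [Finset.sum_sigma]
    have h1 : ∀ s ∈ S a, ∑ m ∈ M a s, v ⟨a, s, m⟩ ≤ q ^ ((3 / 2 : ℝ) * μ - a.natDegree) := by
      intro s hs
      rw [hS, Finset.mem_filter] at hs
      have h2 : ∀ m ∈ M a s, v ⟨a, s, m⟩ =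
          Real.sqrt q ^ (μ - (2 * a.natDegree + s.natDegree)) *
            q ^ (2 * a.natDegree + s.natDegree) := by
        intro m hm
        rw [hM] at hm
        rw [hv]
        dsimp only
        rw [(mem_Mn.1 hm).2]
      rw [Finset.sum_congr rfl h2, Finset.sum_const, nsmul_eq_mul, hM]
      dsimp only
      rw [card_Mn]
      have h3 : ((Fintype.card F ^ (μ - (2 * a.natDegree + s.natDegree)) : ℕ) : ℝ) =
          q ^ (μ - (2 * a.natDegree + s.natDegree)) := by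
        rw [hqdef]
        unfold qr
        push_cast
        rfl
      rw [h3]
      refine powR hq0 _ _ _ _ ?_ hq1
      have h4 : ((μ - (2 * a.natDegree + s.natDegree) : ℕ) : ℝ) =
          (μ : ℝ) - (2 * a.natDegree + s.natDegree) := by
        rw [Nat.cast_sub hs.2]
        push_cast
        ring
      rw [h4]
      have h5 : (0 : ℝ) ≤ s.natDegree := Nat.cast_nonneg _
      nlinarith
    calc ∑ s ∈ S a, ∑ m ∈ M a s, v ⟨a, s, m⟩
        ≤ ∑ s ∈ S a, q ^ ((3 / 2 : ℝ) * μ - a.natDegree) := Finset.sum_le_sum h1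
      _ = ((S a).card : ℝ) * q ^ ((3 / 2 : ℝ) * μ - a.natDegree) := by
          rw [Finset.sum_const, nsmul_eq_mul]
      _ ≤ _ := by
          refine mul_le_mul_of_nonneg_right ?_ (Real.rpow_nonneg hq0.le _)
          have : (S a).card ≤ (Dv (a * t')).card := Finset.card_filter_le _ _
          exact_mod_cast this
  refine (Finset.sum_le_sum hinner).trans ?_
  -- bound of each term by the number of divisors
  have hterm : ∀ a ∈ A, ((Dv (a * t')).card : ℝ) * q ^ ((3 / 2 : ℝ) * μ - a.natDegree) ≤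
      C0 * E * q ^ ((3 / 2 : ℝ) * μ + δ * (μ / 2)) * (q ^ a.natDegree)⁻¹ := by
    intro a haA
    rw [hA, Finset.mem_biUnion] at haA
    obtain ⟨i, hi, hai⟩ := haA
    have ham := (mem_Mn.1 hai).1
    have had := (mem_Mn.1 hai).2
    rw [Finset.mem_range] at hi
    have h1 := hD (a * t') (ham.mul ht'm)
    rw [ham.natDegree_mul ht'm, ht'd] at h1
    have h2 : qr F ^ (δ * ((a.natDegree + t.natDegree : ℕ) : ℝ)) =
        E * q ^ (δ * (a.natDegree : ℝ)) := by
      rw [hE, ← Real.rpow_add hq0]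
      congr 1
      push_cast
      ring
    rw [h2] at h1
    have h3 : q ^ (δ * (a.natDegree : ℝ)) ≤ q ^ (δ * ((μ : ℝ) / 2)) := by
      refine Real.rpow_le_rpow_of_exponent_le hq1 (mul_le_mul_of_nonneg_left ?_ hδ.le)
      have h4 : 2 * a.natDegree ≤ μ := by omega
      have h5 : (2 : ℝ) * a.natDegree ≤ μ := by exact_mod_cast h4
      linarith
    have h6 : q ^ ((3 / 2 : ℝ) * μ - a.natDegree) = q ^ ((3 / 2 : ℝ) * μ) * (q ^ a.natDegree)⁻¹ := by
      rw [Real.rpow_sub hq0, Real.rpow_natCast, div_eq_mul_inv]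
    have h7 : q ^ ((3 / 2 : ℝ) * μ + δ * (μ / 2)) =
        q ^ ((3 / 2 : ℝ) * μ) * q ^ (δ * ((μ : ℝ) / 2)) := Real.rpow_add hq0 _ _
    rw [h6, h7]
    have h8 : ((Dv (a * t')).card : ℝ) ≤ C0 * (E * q ^ (δ * ((μ : ℝ) / 2))) := by
      refine h1.trans (mul_le_mul_of_nonneg_left ?_ (by linarith))
      exact mul_le_mul_of_nonneg_left h3 (by linarith)
    have h9 : 0 ≤ q ^ ((3 / 2 : ℝ) * μ) * (q ^ a.natDegree)⁻¹ := by positivity
    calc ((Dv (a * t')).card : ℝ) * (q ^ ((3 / 2 : ℝ) * μ) * (q ^ a.natDegree)⁻¹)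
        ≤ C0 * (E * q ^ (δ * ((μ : ℝ) / 2))) * (q ^ ((3 / 2 : ℝ) * μ) * (q ^ a.natDegree)⁻¹) :=
          mul_le_mul_of_nonneg_right h8 h9
      _ = _ := by ring
  refine (Finset.sum_le_sum hterm).trans ?_
  rw [← Finset.mul_sum]
  -- the sum of the inverses
  have hAsum : ∑ a ∈ A, (q ^ a.natDegree)⁻¹ ≤ (μ : ℝ) / 2 + 1 := by
    have h1 : ∑ a ∈ A, (q ^ a.natDegree)⁻¹ ≤
        ∑ i ∈ Finset.range (μ / 2 + 1), ∑ a ∈ Mn F i, (q ^ a.natDegree)⁻¹ := by
      rw [hA, Finset.sum_biUnion]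
      intro i _ j _ hij
      rw [Function.onFun, Finset.disjoint_left]
      intro f hf hf'
      exact hij ((mem_Mn.1 hf).2.symm.trans (mem_Mn.1 hf').2)
    refine h1.trans ?_
    have h2 : ∀ i ∈ Finset.range (μ / 2 + 1), ∑ a ∈ Mn F i, (q ^ a.natDegree)⁻¹ = 1 := by
      intro i _
      have h3 : ∀ a ∈ Mn F i, (q ^ a.natDegree)⁻¹ = (q ^ i)⁻¹ := by
        intro a ha
        rw [(mem_Mn.1 ha).2]
      rw [Finset.sum_congr rfl h3, Finset.sum_const, nsmul_eq_mul, card_Mn]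
      have h4 : ((Fintype.card F ^ i : ℕ) : ℝ) = q ^ i := by
        rw [hqdef]
        unfold qr
        push_cast
        rfl
      rw [h4]
      exact mul_inv_cancel₀ (pow_ne_zero _ hq0.ne')
    rw [Finset.sum_congr rfl h2, Finset.sum_const, nsmul_eq_mul, mul_one, Finset.card_range]
    have h5 : ((μ / 2 + 1 : ℕ) : ℝ) = ((μ / 2 : ℕ) : ℝ) + 1 := by push_cast; rfl
    rw [h5]
    have h6 : ((μ / 2 : ℕ) : ℝ) ≤ (μ : ℝ) / 2 := Nat.cast_div_le
    linarith
  have hC1b : (μ : ℝ) / 2 + 1 ≤ C1 * q ^ (δ * ((μ : ℝ) / 2)) := by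
    have h1 : 1 + δ * ((μ : ℝ) / 2) * Real.log q ≤ q ^ (δ * ((μ : ℝ) / 2)) := by
      rw [Real.rpow_def_of_pos hq0]
      have := Real.add_one_le_exp (Real.log q * (δ * ((μ : ℝ) / 2)))
      linarith
    have h2 : (μ : ℝ) / 2 + 1 ≤ C1 * (1 + δ * ((μ : ℝ) / 2) * Real.log q) := by
      have h3 : C1 * (1 + δ * ((μ : ℝ) / 2) * Real.log q) =
          1 + (μ : ℝ) / 2 + δ * ((μ : ℝ) / 2) * Real.log q + 1 / (δ * Real.log q) := by
        rw [hC1]
        field_simp
        ring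
      rw [h3]
      have h4 : 0 ≤ δ * ((μ : ℝ) / 2) * Real.log q := by positivity
      have h5 : 0 < 1 / (δ * Real.log q) := by positivity
      linarith
    exact h2.trans (mul_le_mul_of_nonneg_left h1 (by linarith))
  have hfin : q ^ ((3 / 2 : ℝ) * μ + δ * (μ / 2)) * q ^ (δ * ((μ : ℝ) / 2)) =
      q ^ ((3 / 2 + δ) * (μ : ℝ)) := by
    rw [← Real.rpow_add hq0]
    congr 1
    ring
  have hpos : 0 ≤ C0 * E * q ^ ((3 / 2 : ℝ) * μ + δ * (μ / 2)) := by positivity
  calc C0 * E * q ^ ((3 / 2 : ℝ) * μ + δ * (μ / 2)) * ∑ a ∈ A, (q ^ a.natDegree)⁻¹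
      ≤ C0 * E * q ^ ((3 / 2 : ℝ) * μ + δ * (μ / 2)) * (C1 * q ^ (δ * ((μ : ℝ) / 2))) :=
        mul_le_mul_of_nonneg_left (hAsum.trans hC1b) hpos
    _ = C0 * C1 * E * (q ^ ((3 / 2 : ℝ) * μ + δ * (μ / 2)) * q ^ (δ * ((μ : ℝ) / 2))) := by ring
    _ = _ := by rw [hfin]

end Pool.Agent.Helper31.EP
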